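import Pool.Agent.H877R3.Join.PP
import Pool.Agent.H620R2.Gauge2.V8
import Pool.Agent.H620R2.Gauge2.Trans

/-!
# Strings of exponential length; inequality is in `NP`
-/

namespace Pool.Agent.H877R3.Join

open Pool.Agent.NPC Pool.Agent.H622R2 Pool.Agent.H620R2.Gauge Finset

/-- the input asking for the far string -/
def farIn (n : ℕ) : List Bool := pairBits [false, false, false, true, false] (List.replicate n true)

/-- the far string -/
def farStr (n : ℕ) : List Bool := List.replicate (2 ^ n - 1) false

theorem valB_ones (n : ℕ) : valB (List.replicate n true) = 2 ^ n - 1 := by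
  induction n with
  | zero => rfl
  | succ n ih =>
    rw [List.replicate_succ, valB_cons, ih, pow_succ, if_pos rfl]
    have : 0 < 2 ^ n := by positivity
    omega

theorem farIn_mem {A B X : Oracle}
    (hA : ∀ z, A (false :: false :: true :: false :: z) = X z) (n : ℕ) :
    farIn n ∈ farLang (join A B) ↔ X (farStr n) = true := by
  unfold farLang farIn
  rw [Set.mem_ofPred_eq, unpair_pairBits, valB_ones]
  show join A B (false :: false :: false :: true :: false :: List.replicate (2 ^ n - 1) false) =
    true ↔ _
  show A (false :: false :: true :: false :: List.replicate (2 ^ n - 1) false) = true ↔ _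
  rw [hA]
  exact Iff.rfl

/-- the algorithm with bounded memory is correct on the input `x` -/
def CorrS (M : SAlg) (p : Polynomial ℕ) (A : Oracle) (x : List Bool) (P : Prop) : Prop :=
  (∀ s, M.Reach A x s → s.length ≤ p.eval x.length) ∧
    ∃ s z, M.Reach A x s ∧ M.act (pairBits x s) = true :: z ∧ (P ↔ z = [true])

theorem stageFar {Ψ : Oracle → Oracle} (hΨ : Local Ψ) (X Y : Oracle) (M : SAlg)
    (p : Polynomial ℕ) (N : ℕ) : ∃ (n : ℕ) (X1 Y1 : Oracle) (N' : ℕ), N < N' ∧
      (∀ z : List Bool, z.length < N → X1 z = X z) ∧ (∀ z : List Bool, z.length < N → Y1 z = Y z) ∧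
      ∀ X' Y' : Oracle, (∀ z : List Bool, z.length < N' → X' z = X1 z) →
        (∀ z : List Bool, z.length < N' → Y' z = Y1 z) →
        ¬ CorrS M p (join (Ψ X') (Ψ Y')) (farIn n) (X' (farStr n) = true) := by
  classical
  obtain ⟨b, hb⟩ := CC.act_length M p
  obtain ⟨N1, hN1⟩ := Filter.eventually_atTop.1
    (poly_le (b.comp (Polynomial.X + Polynomial.C 11) + Polynomial.X + Polynomial.C 2) 1)
  set n := max N N1 with hn
  have hnN : N ≤ n := le_max_left _ _
  have hlen : (farIn n).length = n + 11 := by
    unfold farIn
    rw [length_pairBits, List.length_replicate]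
    simp
    omega
  have hbig : b.eval (n + 11) + n + 2 ≤ 2 ^ n := by
    have h1 := hN1 n (le_max_right _ _)
    simpa using h1
  have hfar : (farStr n).length = 2 ^ n - 1 := by
    unfold farStr
    rw [List.length_replicate]
  set X1 : Oracle := fun z => if z = farStr n then
    decide (¬ CC.Acc M (join (Ψ X) (Ψ Y)) (farIn n)) else X z with hX1
  have hX1' : ∀ z : List Bool, z.length < 2 ^ n - 1 → X1 z = X z := by
    intro z hz
    rw [hX1]
    simp only
    rw [if_neg]
    intro h
    rw [h, hfar] at hz
    omega
  refine ⟨n, X1, Y, 2 ^ n + N + 1, by omega, fun z hz => hX1' z (by omega), fun _ _ => rfl, ?_⟩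
  intro X' Y' hX hY hcorr
  obtain ⟨hsp, s, z, hs, hact, hiff⟩ := hcorr
  have hq : ∀ q : List Bool, q.length ≤ b.eval (farIn n).length →
      join (Ψ X) (Ψ Y) q = join (Ψ X') (Ψ Y') q := by
    intro q hq
    rw [hlen] at hq
    match q with
    | [] => rfl
    | false :: q =>
      simp only [List.length_cons] at hq
      exact hΨ (b.eval (n + 11)) X X' (fun z hz => by
        rw [hX z (by omega), hX1' z (by omega)]) q (by omega)
    | true :: q =>
      simp only [List.length_cons] at hq
      exact hΨ (b.eval (n + 11)) Y Y' (fun z hz => by rw [hY z (by omega)]) q (by omega)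
  have hreach := CC.reach_congr (M := M) (A := join (Ψ X') (Ψ Y')) (A' := join (Ψ X) (Ψ Y))
    (x := farIn n) (fun s => s.length ≤ p.eval (farIn n).length) hsp (fun s q hs hact => by
      apply hq
      have h1 := hb (farIn n) s hs
      rw [hact, List.length_cons] at h1
      omega)
  have hXf : X' (farStr n) = X1 (farStr n) := hX _ (by rw [hfar]; omega)
  have hX1f : X1 (farStr n) = true ↔ ¬ CC.Acc M (join (Ψ X) (Ψ Y)) (farIn n) := by
    rw [hX1]
    simp only
    rw [if_pos trivial, decide_eq_true_iff]
  rw [hXf, hX1f] at hiff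
  by_cases hz : z = [true]
  · exact (hiff.2 hz) ⟨s, (hreach s).2 hs, by rw [hact, hz]⟩
  · have h1 : CC.Acc M (join (Ψ X) (Ψ Y)) (farIn n) := by
      by_contra h
      exact hz (hiff.1 h)
    obtain ⟨s2, h2, h3⟩ := h1
    have h4 := CC.reach_unique ((hreach s).2 hs) h2 ⟨z, hact⟩ ⟨[true], h3⟩
    rw [h4, h3] at hact
    simp only [List.cons.injEq, true_and] at hact
    exact hz hact.symm

/-! ### Inequality is in `NP` -/

/-- the decision -/
def ndec (t : List Bool × List Bool) : List Bool :=
  if (unpair t.1).1.length = 2 * (unpair t.1).2.length then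
    if t.2 = [true, true] then [] else if t.2 = [false, false] then [] else [true]
  else []

theorem poly_ndec : Poly ndec := by
  have hu : Poly (fun t : List Bool × List Bool => unpair t.1) :=
    poly_unpair.comp (Poly.fst Poly.id)
  have hn : Poly (fun t : List Bool × List Bool => 2 * (unpair t.1).2.length) :=
    (UPoly.mul (UPoly.const 2) (UPoly.length (Poly.snd hu))).toPoly
  exact Poly.ite (Poly.decide_eq (Poly.length (Poly.fst hu)) hn)
    (Poly.ite (Poly.decide_eq (Poly.snd Poly.id) (NPC.Poly.const _)) (NPC.Poly.const _)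
      (Poly.ite (Poly.decide_eq (Poly.snd Poly.id) (NPC.Poly.const _)) (NPC.Poly.const _)
        (NPC.Poly.const _))) (NPC.Poly.const _)

theorem neq_np {A B X Y : Oracle}
    (hA : ∀ z, A (false :: false :: true :: false :: z) = X z)
    (hB : ∀ z, B (false :: false :: true :: false :: z) = Y z) :
    Pool.Agent.H620R2.Gauge.IsNP (Pool.Agent.H877R3.Join.join A B) (eqLang X Y)ᶜ := by
  set V : List Bool → List Bool := fun y => ndec (y, (dqs y).map (join A B)) with hV
  have hVe : ∀ x w : List Bool, V (pairBits w x) = [true] ↔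
      w.length = 2 * x.length ∧ X w ≠ Y w := by
    intro x w
    have e : V (pairBits w x) = if w.length = 2 * x.length then
        if ([X w, Y w] : List Bool) = [true, true] then [] else
          if ([X w, Y w] : List Bool) = [false, false] then [] else [true] else [] := by
      rw [hV]
      simp only [ndec, dqs, unpair_pairBits, List.map_cons, List.map_nil, join, hA, hB]
    rw [e]
    by_cases h1 : w.length = 2 * x.length
    · rw [if_pos h1]
      cases hx : X w <;> cases hy : Y w <;> simp [h1]
    · simp [h1]
  refine ⟨V, Polynomial.C 2 * Polynomial.X, IsFP.tt poly_dqs poly_ndec, fun x => ?_⟩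
  have hp : (Polynomial.C 2 * Polynomial.X : Polynomial ℕ).eval x.length = 2 * x.length := by
    simp
  rw [hp]
  constructor
  · intro hx
    have hx' : ¬ ∀ z : List Bool, z.length = 2 * x.length → X z = Y z := hx
    push Not at hx'
    obtain ⟨z, h1, h2⟩ := hx'
    exact ⟨z, h1.le, (hVe x z).2 ⟨h1, h2⟩⟩
  · rintro ⟨w, _, hw⟩
    obtain ⟨h1, h2⟩ := (hVe x w).1 hw
    intro h
    exact h2 (h w h1)

end Pool.Agent.H877R3.Join
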