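import Pool.Agent.H620R2.Gauge.Upper

/-!
# Computation after an oracle algorithm; complements
-/

namespace Pool.Agent.H877R3.Join

open Pool.Agent.NPC Pool.Agent.H622R2 Pool.Agent.H620R2.Gauge

/-- the action of the algorithm with a computation afterwards -/
def postD (D g : List Bool → List Bool) (z : List Bool) : List Bool :=
  if (D z).head? = some false then D z else true :: g (D z).tail

theorem post {A : Oracle} {V g : List Bool → List Bool} (hV : IsFP A V) (hg : Poly g) :
    IsFP A (fun y => g (V y)) := by
  obtain ⟨M, hM⟩ := hV
  have hD := poly_of_polyTime M.poly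
  have hD' : Poly (postD M.D g) :=
    Poly.ite (Poly.decide_eq (Poly.head? hD) (NPC.Poly.const _)) hD
      (Poly.cons (NPC.Poly.const _) (hg.comp (Poly.tail hD)))
  refine ⟨⟨postD M.D g, polyTime_of_poly_list hD', M.p⟩, fun y => ?_⟩
  have hrun : ∀ (n : ℕ) (a o : List Bool), M.run A y n a = some o →
      Alg.run ⟨postD M.D g, polyTime_of_poly_list hD', M.p⟩ A y n a = some (g o) := by
    intro n
    induction n with
    | zero => intro a o h; simp [Alg.run] at h
    | succ n ih =>
      intro a o h
      rw [Alg.run] at h ⊢
      rcases hq : M.D (pairBits y a) with _ | ⟨c, r⟩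
      · rw [hq] at h
        have h' : some ([] : List Bool) = some o := h
        simp only [postD, hq]
        simp only [Option.some.injEq] at h'
        subst h'
        rfl
      · rw [hq] at h
        cases c with
        | true =>
          have h' : some r = some o := h
          simp only [postD, hq]
          simp only [Option.some.injEq] at h'
          subst h'
          rfl
        | false =>
          simp only [postD, hq]
          exact ih _ _ h
  exact hrun _ _ _ (hM y)

theorem IsP.compl {A : Oracle} {L : Set (List Bool)} (h : IsP A L) : IsP A Lᶜ := by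
  obtain ⟨V, hV, hL⟩ := h
  refine ⟨fun y => if V y = [true] then [] else [true], post (g := fun v : List Bool =>
    if v = [true] then [] else [true]) hV
    (Poly.ite (Poly.decide_eq Poly.id (NPC.Poly.const _)) (NPC.Poly.const _) (NPC.Poly.const _)),
    fun x => ?_⟩
  rw [Set.mem_compl_iff, hL x]
  by_cases h : V x = [true]
  · simp [h]
  · simp [h]

end Pool.Agent.H877R3.Join
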