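import Pool.Agent.H877R3.Join.IPStage
import Pool.Agent.H877R3.Join.Post
import Pool.Agent.H877R3.Join.Main2

/-!
# A language in `BPP` which is neither in `NP` nor in `coNP`
-/

namespace Pool.Agent.H877R3.Join

open Pool.Agent.NPC Pool.Agent.H622R2 Pool.Agent.H620R2.Gauge Finset

theorem stageEq' (inp : ℕ → List Bool) (hinp : ∀ n, 1 ≤ n → (inp n).length = n)
    {Ψ : Oracle → Oracle} (hΨ : Local Ψ) (X Y : Oracle) (M : Alg)
    (p : Polynomial ℕ) (N : ℕ) : ∃ (n : ℕ) (X1 Y1 : Oracle) (N' : ℕ), N < N' ∧
      (∀ z : List Bool, z.length < N → X1 z = X z) ∧ (∀ z : List Bool, z.length < N → Y1 z = Y z) ∧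
      ∀ X' Y' : Oracle, (∀ z : List Bool, z.length < N' → X' z = X1 z) →
        (∀ z : List Bool, z.length < N' → Y' z = Y1 z) → 1 ≤ n ∧
        ¬ ((∃ w : List Bool, w.length ≤ p.eval n ∧
          M.out (join (Ψ X') (Ψ Y')) (pairBits (inp n) w) = some [true]) ↔
          inp n ∈ eqLang X' Y') := by
  classical
  set r : Polynomial ℕ := M.p.comp (Polynomial.C 2 * Polynomial.X + Polynomial.C 1 + p) with hr
  obtain ⟨N1, hN1⟩ := Filter.eventually_atTop.1 (poly_le (p + 1 + (r + 1) + 1) 1)
  set n := max (N + 1) N1 with hn
  have hn1 : 1 ≤ n := le_trans (by omega) (le_max_left _ _)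
  have hnN : N ≤ n := le_trans (by omega) (le_max_left _ _)
  have hinp' := hinp n hn1
  have hbig : (p.eval n + 1) + (r.eval n + 1) < 2 ^ (2 * n) := by
    have h1 := hN1 n (le_max_right _ _)
    have h2 : 2 ^ n ≤ 2 ^ (2 * n) := Nat.pow_le_pow_right (by norm_num) (by omega)
    simp only [Polynomial.eval_add, Polynomial.eval_one] at h1
    omega
  have hr' : ∀ w : List Bool, w.length ≤ p.eval n →
      M.p.eval (pairBits (inp n) w).length ≤ r.eval n := by
    intro w hw
    rw [hr, Polynomial.eval_comp]
    apply eval_mono'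
    rw [length_pairBits, hinp']
    simp only [Polynomial.eval_add, Polynomial.eval_mul, Polynomial.eval_C, Polynomial.eval_X]
    omega
  have hnot : ¬ ∀ S T : Finset (Fin (2 * n) → Bool),
      ((∃ w : List Bool, w.length ≤ p.eval n ∧ M.out (join (Ψ (put (2 * n) S X))
        (Ψ (put (2 * n) T Y))) (pairBits (inp n) w) = some [true]) ↔ S = T) := by
    intro h
    have h1 := hardEq M (inp n) (p.eval n) (r.eval n) hr' (fun S => Ψ (put (2 * n) S X))
      (fun T => Ψ (put (2 * n) T Y)) h
    rw [← pow_add] at h1
    have h2 := (Nat.pow_le_pow_iff_right (by norm_num : 1 < 2)).1 h1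
    omega
  push Not at hnot
  obtain ⟨S, T, hfail⟩ := hnot
  obtain ⟨N2, hN2⟩ := out_congr hΨ M (2 * n + 1 + p.eval n)
  refine ⟨n, put (2 * n) S X, put (2 * n) T Y, max N2 (2 * n + 1) + N + 1, by omega, ?_, ?_, ?_⟩
  · intro z hz
    exact put_ne (by omega)
  · intro z hz
    exact put_ne (by omega)
  intro X' Y' hX hY
  refine ⟨hn1, fun hiff => ?_⟩
  have key : ∀ w : List Bool, w.length ≤ p.eval n →
      M.out (join (Ψ X') (Ψ Y')) (pairBits (inp n) w) =
      M.out (join (Ψ (put (2 * n) S X)) (Ψ (put (2 * n) T Y))) (pairBits (inp n) w) := by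
    intro w hw
    refine hN2 _ _ _ _ (fun z hz => hX z (by omega)) (fun z hz => hY z (by omega)) _ ?_
    rw [length_pairBits, hinp']
    omega
  have key2 : inp n ∈ eqLang X' Y' ↔ S = T := by
    rw [← put_eq_put (X := X) (Y := Y)]
    show (∀ z : List Bool, z.length = 2 * (inp n).length → X' z = Y' z) ↔ _
    rw [hinp']
    constructor
    · intro h z hz
      rw [← hX z (by omega), ← hY z (by omega)]
      exact h z hz
    · intro h z hz
      rw [hX z (by omega), hY z (by omega)]
      exact h z hz
  rw [key2] at hiff
  have hiff' : (∃ w : List Bool, w.length ≤ p.eval n ∧ M.out (join (Ψ (put (2 * n) S X))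
        (Ψ (put (2 * n) T Y))) (pairBits (inp n) w) = some [true]) ↔ S = T := by
    rw [← hiff]
    constructor
    · rintro ⟨w, hw, h⟩
      exact ⟨w, hw, by rw [key w hw]; exact h⟩
    · rintro ⟨w, hw, h⟩
      exact ⟨w, hw, by rw [← key w hw]; exact h⟩
  rcases hfail with ⟨h1, h2⟩ | ⟨h1, h2⟩
  · exact h2 (hiff'.1 h1)
  · obtain ⟨w, hw, h⟩ := hiff'.2 h2
    exact h1 w hw h

/-! ### Computation after an oracle algorithm, with the input -/

/-- the action of the algorithm with a computation afterwards -/
def postD2 (D : List Bool → List Bool) (g : List Bool × List Bool → List Bool)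
    (z : List Bool) : List Bool :=
  if (D z).head? = some false then D z else true :: g ((unpair z).1, (D z).tail)

theorem post2 {A : Oracle} {V : List Bool → List Bool} {g : List Bool × List Bool → List Bool}
    (hV : IsFP A V) (hg : Poly g) : IsFP A (fun y => g (y, V y)) := by
  obtain ⟨M, hM⟩ := hV
  have hD := poly_of_polyTime M.poly
  have hD' : Poly (postD2 M.D g) :=
    Poly.ite (Poly.decide_eq (Poly.head? hD) (NPC.Poly.const _)) hD
      (Poly.cons (NPC.Poly.const _) (hg.comp (Poly.pair (Poly.fst poly_unpair) (Poly.tail hD))))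
  refine ⟨⟨postD2 M.D g, polyTime_of_poly_list hD', M.p⟩, fun y => ?_⟩
  have hrun : ∀ (n : ℕ) (a o : List Bool), M.run A y n a = some o →
      Alg.run ⟨postD2 M.D g, polyTime_of_poly_list hD', M.p⟩ A y n a = some (g (y, o)) := by
    intro n
    induction n with
    | zero => intro a o h; simp [Alg.run] at h
    | succ n ih =>
      intro a o h
      rw [Alg.run] at h ⊢
      rcases hq : M.D (pairBits y a) with _ | ⟨c, r⟩
      · rw [hq] at h
        have h' : some ([] : List Bool) = some o := h
        simp only [postD2, hq, unpair_pairBits]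
        simp only [Option.some.injEq] at h'
        subst h'
        rfl
      · rw [hq] at h
        cases c with
        | true =>
          have h' : some r = some o := h
          simp only [postD2, hq, unpair_pairBits]
          simp only [Option.some.injEq] at h'
          subst h'
          rfl
        | false =>
          simp only [postD2, hq]
          exact ih _ _ h
  exact hrun _ _ _ (hM y)

/-! ### The language -/

/-- the inputs starting with `true` ask for equality, the others for inequality -/
def halfLang (X Y : Oracle) : Set (List Bool) := {x | x ∈ eqLang X Y ↔ x.head? = some true}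

/-- negate the answer unless the input starts with `true` -/
def flip (t : List Bool × List Bool) : List Bool :=
  if (unpair t.1).2.head? = some true then t.2 else if t.2 = [true] then [] else [true]

theorem poly_flip : Poly flip := by
  have h1 : Poly (fun t : List Bool × List Bool => (unpair t.1).2.head?) :=
    Poly.head? (Poly.snd (poly_unpair.comp (Poly.fst Poly.id)))
  exact Poly.ite (Poly.decide_eq h1 (NPC.Poly.const _)) (Poly.snd Poly.id)
    (Poly.ite (Poly.decide_eq (Poly.snd Poly.id) (NPC.Poly.const _)) (NPC.Poly.const _)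
      (NPC.Poly.const _))

theorem accPr_compl (V : List Bool → List Bool) (r : ℕ) (x : List Bool) :
    accPr (fun y => if V y = [true] then [] else [true]) r x = 1 - accPr V r x := by
  have h1 : Nat.card {w : Fin r → Bool // (if V (pairBits (List.ofFn w) x) = [true] then []
      else [true]) = [true]} + Nat.card {w : Fin r → Bool //
        V (pairBits (List.ofFn w) x) = [true]} = 2 ^ r := by
    classical
    have h2 : (univ : Finset (Fin r → Bool)).card = 2 ^ r := by simp
    rw [← h2, Nat.card_eq_fintype_card, Nat.card_eq_fintype_card, Fintype.card_subtype,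
      Fintype.card_subtype, add_comm, ← card_filter_add_card_filter_not
        (s := (univ : Finset (Fin r → Bool))) (fun w => V (pairBits (List.ofFn w) x) = [true])]
    congr 2
    ext w
    simp only [mem_filter, mem_univ, true_and]
    split_ifs with h <;> simp [h]
  have h3 : (Nat.card {w : Fin r → Bool // (if V (pairBits (List.ofFn w) x) = [true] then []
      else [true]) = [true]} : ℝ) + (Nat.card {w : Fin r → Bool //
        V (pairBits (List.ofFn w) x) = [true]} : ℝ) = 2 ^ r := by exact_mod_cast h1
  have hpos : (0 : ℝ) < 2 ^ r := by positivity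
  rw [accPr, accPr, eq_sub_iff_add_eq, ← add_div, h3, div_self hpos.ne']

theorem half_bpp {A X Y : Oracle} (h : IsBPP A (eqLang X Y)) : IsBPP A (halfLang X Y) := by
  obtain ⟨V, p, hV, hL⟩ := h
  refine ⟨fun y => flip (y, V y), p, post2 hV poly_flip, fun x => ?_⟩
  obtain ⟨h1, h2⟩ := hL x
  by_cases hx : x.head? = some true
  · have e : accPr (fun y => flip (y, V y)) (p.eval x.length) x = accPr V (p.eval x.length) x := by
      unfold accPr flip
      simp only [unpair_pairBits, if_pos hx]
    have e2 : x ∈ halfLang X Y ↔ x ∈ eqLang X Y := by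
      show (x ∈ eqLang X Y ↔ x.head? = some true) ↔ _
      exact ⟨fun h => h.2 hx, fun h => ⟨fun _ => hx, fun _ => h⟩⟩
    rw [e, e2]
    exact ⟨h1, h2⟩
  · have e : accPr (fun y => flip (y, V y)) (p.eval x.length) x =
        1 - accPr V (p.eval x.length) x := by
      rw [← accPr_compl]
      unfold accPr flip
      simp only [unpair_pairBits, if_neg hx]
    have e2 : x ∈ halfLang X Y ↔ x ∉ eqLang X Y := by
      show (x ∈ eqLang X Y ↔ x.head? = some true) ↔ _
      exact ⟨fun h h' => hx (h.1 h'), fun h => ⟨fun h' => absurd h' h, fun h' => absurd h' hx⟩⟩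
    rw [e, e2]
    refine ⟨fun h => ?_, fun h => ?_⟩
    · have := h2 h
      linarith
    · have := h1 (not_not.1 h)
      linarith

end Pool.Agent.H877R3.Join
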