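import Pool.Agent.H877R3.Join.DisHard

/-!
# The inner product has small discrepancy
-/

namespace Pool.Agent.H877R3.Join

open Pool.Agent.NPC Pool.Agent.H620R2.Gauge Finset

variable {I : Type} [Fintype I] [DecidableEq I]

/-- the character -/
def chi (S T : I → Bool) : ℝ := ∏ i, (if S i = true ∧ T i = true then -1 else 1)

theorem chi_orth (T T' : I → Bool) :
    ∑ S : I → Bool, chi S T * chi S T' = if T = T' then (2 : ℝ) ^ Fintype.card I else 0 := by
  have h1 : ∀ S : I → Bool, chi S T * chi S T' = ∏ i, ((if S i = true ∧ T i = true then -1 else 1) *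
      (if S i = true ∧ T' i = true then -1 else 1) : ℝ) := fun S => by
    rw [chi, chi, ← prod_mul_distrib]
  have h2 := Finset.prod_univ_sum (fun _ : I => (univ : Finset Bool))
    (fun i b => ((if b = true ∧ T i = true then -1 else 1) *
      (if b = true ∧ T' i = true then -1 else 1) : ℝ))
  rw [Fintype.piFinset_univ] at h2
  rw [sum_congr rfl fun S _ => h1 S, ← h2]
  have h3 : ∀ i, ∑ b : Bool, ((if b = true ∧ T i = true then -1 else 1) *
      (if b = true ∧ T' i = true then -1 else 1) : ℝ) = if T i = T' i then 2 else 0 := by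
    intro i
    rw [Fintype.sum_bool]
    cases T i <;> cases T' i <;> norm_num
  rw [prod_congr rfl fun i _ => h3 i]
  split_ifs with h
  · subst h
    simp
  · obtain ⟨i, hi⟩ := Function.ne_iff.1 h
    exact prod_eq_zero (mem_univ i) (if_neg hi)

theorem lindsey (A B : Finset (I → Bool)) :
    (∑ S ∈ A, ∑ T ∈ B, chi S T) ^ 2 ≤ A.card * B.card * (2 : ℝ) ^ Fintype.card I := by
  have h1 := sq_sum_le_card_mul_sum_sq (s := A) (f := fun S => ∑ T ∈ B, chi S T)
  have h2 : ∑ S ∈ A, (∑ T ∈ B, chi S T) ^ 2 ≤ ∑ S, (∑ T ∈ B, chi S T) ^ 2 :=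
    sum_le_sum_of_subset_of_nonneg (subset_univ _) (fun _ _ _ => sq_nonneg _)
  have h3 : ∑ S, (∑ T ∈ B, chi S T) ^ 2 = B.card * (2 : ℝ) ^ Fintype.card I := by
    have e1 : ∀ S : I → Bool, (∑ T ∈ B, chi S T) ^ 2 = ∑ T ∈ B, ∑ T' ∈ B, chi S T * chi S T' := by
      intro S
      rw [sq, sum_mul_sum]
    rw [sum_congr rfl fun S _ => e1 S, sum_comm]
    have e2 : ∀ T ∈ B, ∑ S, ∑ T' ∈ B, chi S T * chi S T' = (2 : ℝ) ^ Fintype.card I := by
      intro T hT
      rw [sum_comm, sum_congr rfl fun T' _ => chi_orth T T', sum_ite_eq, if_pos hT]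
    rw [sum_congr rfl e2, sum_const, nsmul_eq_mul]
  calc _ ≤ (A.card : ℝ) * ∑ S ∈ A, (∑ T ∈ B, chi S T) ^ 2 := h1
    _ ≤ A.card * (B.card * (2 : ℝ) ^ Fintype.card I) := by
        rw [← h3]
        exact mul_le_mul_of_nonneg_left h2 (Nat.cast_nonneg _)
    _ = _ := by ring

theorem lindsey' (A B : Finset (I → Bool)) :
    |∑ S ∈ A, ∑ T ∈ B, chi S T| ≤ √((2 : ℝ) ^ (3 * Fintype.card I)) := by
  apply Real.abs_le_sqrt
  refine (lindsey A B).trans ?_
  have hc : ∀ D : Finset (I → Bool), (D.card : ℝ) ≤ 2 ^ Fintype.card I := by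
    intro D
    have : D.card ≤ Fintype.card (I → Bool) := card_le_univ D
    rw [Fintype.card_fun, Fintype.card_bool] at this
    exact_mod_cast this
  have h1 := hc A
  have h2 := hc B
  calc (A.card * B.card * (2 : ℝ) ^ Fintype.card I) ≤
        2 ^ Fintype.card I * 2 ^ Fintype.card I * 2 ^ Fintype.card I := by
        gcongr
    _ = _ := by rw [← pow_add, ← pow_add]; congr 1; ring

/-- the parity of the intersection -/
theorem chi_eq (S T : I → Bool) : chi S T =
    if Odd (univ.filter (fun i => S i = true ∧ T i = true)).card then -1 else 1 := by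
  rw [chi, prod_ite, prod_const, prod_const, one_pow, mul_one]
  split_ifs with h
  · exact h.neg_one_pow
  · exact (Nat.not_odd_iff_even.1 h).neg_one_pow

theorem hardPP (M : Alg) (x : List Bool) (r l : ℕ)
    (hr : ∀ w : Fin l → Bool, M.p.eval (pairBits (List.ofFn w) x).length ≤ r)
    (F G : (I → Bool) → Oracle)
    (h1 : ∀ S T, Odd (univ.filter (fun i => S i = true ∧ T i = true)).card →
      2 ^ l < 2 * Nat.card {w : Fin l → Bool //
        M.out (join (F S) (G T)) (pairBits (List.ofFn w) x) = some [true]})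
    (h2 : ∀ S T, ¬ Odd (univ.filter (fun i => S i = true ∧ T i = true)).card →
      2 * Nat.card {w : Fin l → Bool //
        M.out (join (F S) (G T)) (pairBits (List.ofFn w) x) = some [true]} < 2 ^ l) :
    Fintype.card I ≤ 2 * (l + r + 3) := by
  classical
  set N := Fintype.card I with hN
  set B : ℝ := √((2 : ℝ) ^ (3 * N)) with hB
  have hB0 : 0 ≤ B := Real.sqrt_nonneg _
  have hB2 : B ^ 2 = 2 ^ (3 * N) := Real.sq_sqrt (by positivity)
  set acc : (Fin l → Bool) → (I → Bool) → (I → Bool) → ℝ := fun w S T =>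
    if M.out (join (F S) (G T)) (pairBits (List.ofFn w) x) = some [true] then 1 else 0 with hacc
  have hcard : ∀ S T, (Nat.card {w : Fin l → Bool //
      M.out (join (F S) (G T)) (pairBits (List.ofFn w) x) = some [true]} : ℝ) =
      ∑ w, acc w S T := by
    intro S T
    rw [Nat.card_eq_fintype_card, Fintype.card_subtype, card_filter]
    push_cast
    rfl
  -- every pair
  have hpt : ∀ S T, 1 ≤ -(chi S T * (2 * ∑ w, acc w S T - 2 ^ l)) := by
    intro S T
    rw [← hcard, chi_eq]
    by_cases h : Odd (univ.filter (fun i => S i = true ∧ T i = true)).card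
    · rw [if_pos h]
      have := h1 S T h
      have h' : (2 : ℝ) ^ l + 1 ≤ 2 * (Nat.card {w : Fin l → Bool //
        M.out (join (F S) (G T)) (pairBits (List.ofFn w) x) = some [true]} : ℝ) := by
        exact_mod_cast this
      linarith
    · rw [if_neg h]
      have := h2 S T h
      have h' : 2 * (Nat.card {w : Fin l → Bool //
        M.out (join (F S) (G T)) (pairBits (List.ofFn w) x) = some [true]} : ℝ) + 1 ≤ 2 ^ l := by
        exact_mod_cast this
      linarith
  -- one random string
  have hw : ∀ w, |∑ S, ∑ T, chi S T * acc w S T| ≤ 2 ^ (r + 1) * B := by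
    intro w
    set key : (I → Bool) → (I → Bool) → List Bool := fun S T =>
      tr M (join (F S) (G T)) (pairBits (List.ofFn w) x)
        (M.p.eval (pairBits (List.ofFn w) x).length) [] with hkey
    have hmem : ∀ p ∈ (univ : Finset ((I → Bool) × (I → Bool))), key p.1 p.2 ∈ W_strs r := by
      intro p _
      refine W_mem_strs ?_
      refine (length_tr _ _ _ _ _).trans ?_
      simpa using hr w
    have e1 : ∑ S, ∑ T, chi S T * acc w S T = ∑ t ∈ W_strs r,
        ∑ p ∈ univ.filter (fun p : (I → Bool) × (I → Bool) => key p.1 p.2 = t),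
          chi p.1 p.2 * acc w p.1 p.2 := by
      rw [sum_fiberwise_of_maps_to hmem, Fintype.sum_prod_type]
    rw [e1]
    refine (abs_sum_le_sum_abs _ _).trans ?_
    have e2 : ∀ t ∈ W_strs r, |∑ p ∈ univ.filter
        (fun p : (I → Bool) × (I → Bool) => key p.1 p.2 = t), chi p.1 p.2 * acc w p.1 p.2| ≤ B := by
      intro t _
      set P : Finset (I → Bool) := univ.filter (fun S => ∃ T, key S T = t ∧ acc w S T = 1) with hP
      set Q : Finset (I → Bool) := univ.filter (fun T => ∃ S, key S T = t) with hQ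
      have e3 : ∑ p ∈ univ.filter (fun p : (I → Bool) × (I → Bool) => key p.1 p.2 = t),
          chi p.1 p.2 * acc w p.1 p.2 = ∑ S ∈ P, ∑ T ∈ Q, chi S T := by
        rw [← sum_product']
        rw [← sum_filter_add_sum_filter_not (univ.filter
          (fun p : (I → Bool) × (I → Bool) => key p.1 p.2 = t)) (fun p => acc w p.1 p.2 = 1)]
        have e4 : ∑ p ∈ (univ.filter (fun p : (I → Bool) × (I → Bool) => key p.1 p.2 = t)).filter
            (fun p => ¬ acc w p.1 p.2 = 1), chi p.1 p.2 * acc w p.1 p.2 = 0 := by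
          refine sum_eq_zero fun p hp => ?_
          rw [mem_filter] at hp
          have h5 := hp.2
          rw [hacc] at h5 ⊢
          simp only at h5 ⊢
          split_ifs at h5 ⊢ with h6
          · exact absurd rfl h5
          · rw [mul_zero]
        rw [e4, add_zero]
        have e5 : (univ.filter (fun p : (I → Bool) × (I → Bool) => key p.1 p.2 = t)).filter
            (fun p => acc w p.1 p.2 = 1) = P ×ˢ Q := by
          ext ⟨S, T⟩
          rw [mem_filter, mem_filter, mem_product, hP, hQ, mem_filter, mem_filter]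
          simp only [mem_univ, true_and]
          constructor
          · rintro ⟨a1, a2⟩
            exact ⟨⟨T, a1, a2⟩, ⟨S, a1⟩⟩
          · rintro ⟨⟨T0, b1, b2⟩, ⟨S0, b3⟩⟩
            have k1 : key S T0 = key S0 T := b1.trans b3.symm
            have k2 := mix M (join (F S) (G T0)) (join (F S0) (G T)) (join (F S) (G T))
              (pairBits (List.ofFn w) x) (mixJoin _ _ _ _) _ _ k1
            have k3 : key S T = key S T0 :=
              mix' M (join (F S) (G T0)) (join (F S0) (G T)) (join (F S) (G T))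
              (pairBits (List.ofFn w) x) (mixJoin _ _ _ _) _ _ k1
            have k4 : M.out (join (F S) (G T)) (pairBits (List.ofFn w) x) =
                M.out (join (F S) (G T0)) (pairBits (List.ofFn w) x) := k2
            refine ⟨k3.trans b1, ?_⟩
            rw [hacc] at b2 ⊢
            simp only at b2 ⊢
            rw [k4]
            exact b2
        rw [e5]
        refine sum_congr rfl fun p hp => ?_
        rw [← e5, mem_filter] at hp
        rw [hp.2, mul_one]
      rw [e3]
      exact lindsey' P Q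
    refine (sum_le_sum e2).trans ?_
    rw [sum_const, nsmul_eq_mul]
    refine mul_le_mul_of_nonneg_right ?_ hB0
    exact_mod_cast W_card_strs r
  have htot : ((2 : ℝ) ^ N) * 2 ^ N ≤ 2 ^ (l + r + 3) * B := by
    have e1 : ∑ S : I → Bool, ∑ T : I → Bool, (1 : ℝ) = 2 ^ N * 2 ^ N := by
      simp only [sum_const, card_univ, nsmul_eq_mul, mul_one, Fintype.card_fun, Fintype.card_bool]
      push_cast
      rfl
    have e2 : ∑ S : I → Bool, ∑ T : I → Bool, -(chi S T * (2 * ∑ w, acc w S T - 2 ^ l)) =
        -(2 * ∑ w, ∑ S, ∑ T, chi S T * acc w S T) +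
          2 ^ l * ∑ S : I → Bool, ∑ T : I → Bool, chi S T := by
      have e3 : ∑ w, ∑ S, ∑ T, chi S T * acc w S T = ∑ S, ∑ T, ∑ w, chi S T * acc w S T := by
        rw [sum_comm]
        refine sum_congr rfl fun S _ => ?_
        rw [sum_comm]
      rw [e3, mul_sum, mul_sum, ← sum_neg_distrib, ← sum_add_distrib]
      refine sum_congr rfl fun S _ => ?_
      rw [mul_sum, mul_sum, ← sum_neg_distrib, ← sum_add_distrib]
      refine sum_congr rfl fun T _ => ?_
      rw [← mul_sum]
      ring
    have e4 := sum_le_sum (s := (univ : Finset (I → Bool))) fun S _ =>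
      sum_le_sum (s := (univ : Finset (I → Bool))) fun T _ => hpt S T
    rw [e1, e2] at e4
    have e5 : |∑ w, ∑ S, ∑ T, chi S T * acc w S T| ≤ 2 ^ l * (2 ^ (r + 1) * B) := by
      refine (abs_sum_le_sum_abs _ _).trans ((sum_le_sum fun w _ => hw w).trans (le_of_eq ?_))
      rw [sum_const, card_univ, nsmul_eq_mul, Fintype.card_fun, Fintype.card_bool,
        Fintype.card_fin]
      push_cast
      rfl
    have e6 := lindsey' (univ : Finset (I → Bool)) (univ : Finset (I → Bool))
    rw [← hN, ← hB] at e6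
    have e7 := neg_abs_le (∑ w, ∑ S, ∑ T, chi S T * acc w S T)
    have e8 := le_abs_self (∑ S : I → Bool, ∑ T : I → Bool, chi S T)
    have e9 : (2 : ℝ) ^ l * ∑ S : I → Bool, ∑ T : I → Bool, chi S T ≤ 2 ^ l * B :=
      mul_le_mul_of_nonneg_left (e8.trans e6) (by positivity)
    have e10 : (2 : ℝ) ^ l * B ≤ 2 ^ l * (2 ^ (r + 1) * B) := by
      refine mul_le_mul_of_nonneg_left ?_ (by positivity)
      have : (1 : ℝ) ≤ 2 ^ (r + 1) := one_le_pow₀ (by norm_num)
      nlinarith
    have e11 : (2 : ℝ) ^ (l + r + 3) * B = 4 * (2 ^ l * (2 ^ (r + 1) * B)) := by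
      rw [show l + r + 3 = l + (r + 1) + 2 by ring, pow_add, pow_add]
      ring
    rw [e11]
    have e12 : 0 ≤ (2 : ℝ) ^ l * (2 ^ (r + 1) * B) := by positivity
    linarith
  have hsq : ((2 : ℝ) ^ N * 2 ^ N) ^ 2 ≤ (2 ^ (l + r + 3) * B) ^ 2 :=
    pow_le_pow_left₀ (by positivity) htot 2
  rw [mul_pow, mul_pow, hB2] at hsq
  have h5 : (2 : ℝ) ^ (4 * N) ≤ 2 ^ (2 * (l + r + 3) + 3 * N) := by
    calc (2 : ℝ) ^ (4 * N) = (2 ^ N) ^ 2 * (2 ^ N) ^ 2 := by
          rw [← pow_mul, ← pow_add]; congr 1; ring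
      _ ≤ _ := hsq
      _ = _ := by rw [← pow_mul, ← pow_add]; congr 1; ring
  have h6 := (pow_le_pow_iff_right₀ (by norm_num : (1 : ℝ) < 2)).1 h5
  omega

end Pool.Agent.H877R3.Join
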