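import Pool.Agent.H943R3.PP.N2

/-!
# The parity of the number of solutions can be computed in polynomial space

(A variant of `Pool.Agent.H943R3.PP.N2`.)
-/

namespace Pool.Agent.H877R3.Join

open Pool.Agent.NPC Pool.Agent.H622R2 Pool.Agent.H620R2.Gauge

namespace Par

open Pool.Agent.H620R2.Gauge.U1 Pool.Agent.H943R3.PP Pool.Agent.H943R3.PP.N2

/-- what the new algorithm does next -/
def mA (M : SAlg) (β : List Bool → ℕ) (y : List Bool) (t : ℕ × ℕ × List Bool) : List Bool :=
  if (inAct M y (t.1, t.2.2)).head? = some true then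
    (if β y + 1 < (t.1 + 1).bits.length then
      (if (cN M β y t).bits.head? = some true then [true, true] else [true])
    else [false])
  else inAct M y (t.1, t.2.2)

section

attribute [local fun_prop] poly_pairBits

attribute [local irreducible] unpair dst3

theorem poly_mA (M : SAlg) {β : List Bool → ℕ} (hβ : UPoly β) :
    Poly (fun v : List Bool × ℕ × ℕ × List Bool => mA M β v.1 v.2) := by
  have h1 := poly_in M
  have h2 : Poly (fun v : List Bool × ℕ × ℕ × List Bool => β v.1) := hβ.toPoly.comp (by fun_prop)
  have h5 : Poly (fun n : ℕ => n.bits) := Poly.natBits Poly.id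
  have h7 : Poly (fun v : List Bool × ℕ × ℕ × List Bool => v.2.1 + 1) := by fun_prop
  have h3 : Poly (fun v : List Bool × ℕ × ℕ × List Bool => (v.2.1 + 1).bits.length) :=
    Poly.length (h5.comp (f := fun v : List Bool × ℕ × ℕ × List Bool => v.2.1 + 1) h7)
  have h4 := poly_cN M hβ
  unfold mA
  exact Poly.ite (Poly.decide_eq (Poly.head? h1) (NPC.Poly.const _))
    (Poly.ite (Poly.decide_lt (Poly.add h2 (NPC.Poly.const 1)) h3)
      (Poly.ite (Poly.decide_eq (Poly.head? (h5.comp (f := fun v : List Bool × ℕ × ℕ × List Bool =>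
        cN M β v.1 v.2) h4)) (NPC.Poly.const _)) (NPC.Poly.const _)
        (NPC.Poly.const _)) (NPC.Poly.const _)) h1

theorem poly_act (M : SAlg) {β : List Bool → ℕ} (hβ : UPoly β) :
    Poly (fun v : List Bool => mA M β (unpair v).1 (dst3 (unpair v).2)) := by
  have h2 := poly_unpair
  have h3 := poly_dst3
  exact (poly_mA M hβ).comp (f := fun v : List Bool => ((unpair v).1, dst3 (unpair v).2))
    (by fun_prop)

end

theorem head_bits (n : ℕ) : n.bits.head? = some true ↔ Odd n := by
  induction n using Nat.binaryRec with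
  | zero => simp
  | bit b n ih =>
    rcases Nat.eq_zero_or_pos n with h | h
    · subst h
      cases b
      · simp
      · simp
    · have h2 : (Nat.bit b n).bits = b :: n.bits :=
        Nat.bits_append_bit _ _ (fun h0 => absurd h0 (by omega))
      rw [h2]
      cases b
      · simp [Nat.bit]
      · simp [Nat.bit]

theorem parity {A : Oracle} {L : Set (List Bool)} (h : IsPSPACE A L)
    {β : List Bool → ℕ} (hβ : UPoly β) :
    IsPSPACE A {y | Odd (cc (β y) y L (2 ^ (β y + 1)))} := by
  classical
  obtain ⟨M, p, hM⟩ := h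
  obtain ⟨q, hq⟩ := Poly.sz_le hβ
  have hqb : ∀ y, β y ≤ (q.comp (Polynomial.C 4 * Polynomial.X + Polynomial.C 1)).eval y.length := by
    intro y
    refine A2.sz_eval_le ?_
    have h1 := length_lt_sz (List.replicate (β y) ())
    rw [List.length_replicate] at h1
    exact h1.le.trans (hq y)
  let N : SAlg := ⟨fun v => mA M β (unpair v).1 (dst3 (unpair v).2),
    polyTime_of_poly_list (poly_act M hβ),
    fun v => bits (mN M β (unpair v).1 ((unpair v).2.head?.getD false) (dst3 (unpair v).2.tail)),
    polyTime_bits (poly_next M hβ)⟩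
  refine ⟨N, Polynomial.C 8 * (q.comp (Polynomial.C 4 * Polynomial.X + Polynomial.C 1) +
    Polynomial.C 1) + Polynomial.C 3 + (Polynomial.C 4 * p.comp (Polynomial.C 2 *
    q.comp (Polynomial.C 4 * Polynomial.X + Polynomial.C 1) + Polynomial.C 1 + Polynomial.X) +
    Polynomial.C 1) + Polynomial.C 1, fun y => ?_⟩
  have hact : ∀ s, N.act (pairBits y s) = mA M β y (dst3 s) := fun s => by
    show mA M β (unpair (pairBits y s)).1 (dst3 (unpair (pairBits y s)).2) = _
    rw [unpair_pairBits]
  have hnext : ∀ b s, N.next (pairBits y (b :: s)) = bits (mN M β y b (dst3 s)) := fun b s => by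
    show bits (mN M β (unpair (pairBits y (b :: s))).1
      ((unpair (pairBits y (b :: s))).2.head?.getD false)
      (dst3 (unpair (pairBits y (b :: s))).2.tail)) = _
    rw [unpair_pairBits]
    rfl
  -- the memory of the given algorithm occurs
  have inv : ∀ s, N.Reach A y s → 1 ≤ (dst3 s).1 ∧ (dst3 s).1.bits.length ≤ β y + 1 ∧
      M.Reach A (pairBits (cand (dst3 s).1) y) (dst3 s).2.2 ∧ (dst3 s).2.1 < (dst3 s).1 ∧
      (s = [] ∨ s = bits (dst3 s)) := by
    intro s hs
    induction hs with
    | start =>
        rw [dst3_nil]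
        exact ⟨le_rfl, by simp, SAlg.Reach.start, by simp, Or.inl rfl⟩
    | @step s r hs hr ih =>
        obtain ⟨h1, h2, h3, h4, h5⟩ := ih
        rw [hact] at hr
        rw [hnext, dst3_bits]
        unfold mA at hr
        unfold mN
        by_cases c2 : (inAct M y ((dst3 s).1, (dst3 s).2.2)).head? = some true
        · rw [if_pos c2] at hr ⊢
          by_cases c3 : β y + 1 < ((dst3 s).1 + 1).bits.length
          · rw [if_pos c3] at hr
            split_ifs at hr <;> simp at hr
          · refine ⟨by simp, not_lt.1 c3, SAlg.Reach.start, ?_, Or.inr rfl⟩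
            show cN M β y (dst3 s) < (dst3 s).1 + 1
            unfold cN
            split_ifs <;> omega
        · rw [if_neg c2] at hr ⊢
          exact ⟨h1, h2, SAlg.Reach.step h3 hr, h4, Or.inr rfl⟩
  -- simulation
  have sim : ∀ n c s, N.Reach A y s → dst3 s = (n, c, []) →
      ∀ t, M.Reach A (pairBits (cand n) y) t → ∃ s', N.Reach A y s' ∧ dst3 s' = (n, c, t) := by
    intro n c s hs hd t ht
    induction ht with
    | start => exact ⟨s, hs, hd⟩
    | @step t r ht hr ih =>
        obtain ⟨s', h1, h2⟩ := ih
        have hin : inAct M y (n, t) = false :: r := hr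
        have h3 : N.act (pairBits y s') = false :: r := by
          rw [hact, h2]
          simp [mA, hin]
        have h4 := SAlg.Reach.step h1 h3
        refine ⟨_, h4, ?_⟩
        rw [hnext, dst3_bits, h2]
        simp [mN, hin]
  have hcN : ∀ n c t z, inAct M y (n, t) = true :: z → (pairBits (cand n) y ∈ L ↔ z = [true]) →
      cN M β y (n, c, t) = c + (if n.bits.length = β y + 1 ∧ pairBits (cand n) y ∈ L
        then 1 else 0) := by
    intro n c t z hin hz
    unfold cN
    simp only [hin]
    by_cases h1 : z = [true]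
    · rw [if_pos (by rw [h1])]
      by_cases h2 : n.bits.length = β y + 1
      · rw [if_pos h2, if_pos ⟨h2, hz.2 h1⟩]
      · rw [if_neg h2, if_neg (fun h => h2 h.1)]
        rfl
    · rw [if_neg (by simpa using h1), if_neg (fun h => h1 (hz.1 h.2))]
      rfl
  have adv : ∀ n c s, N.Reach A y s → dst3 s = (n, c, []) →
      (n + 1).bits.length ≤ β y + 1 → ∃ s', N.Reach A y s' ∧ dst3 s' = (n + 1,
        c + (if n.bits.length = β y + 1 ∧ pairBits (cand n) y ∈ L then 1 else 0), []) := by
    intro n c s hs hd hlen
    obtain ⟨_, t, z, h2, h3, h4⟩ := hM (pairBits (cand n) y)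
    obtain ⟨s', h5, h6⟩ := sim n c s hs hd t h2
    have hin : inAct M y (n, t) = true :: z := h3
    have h7 : N.act (pairBits y s') = false :: [] := by
      rw [hact, h6]
      unfold mA
      simp only [hin]
      rw [if_pos (by simp), if_neg (by simpa using hlen)]
    have h8 := SAlg.Reach.step h5 h7
    refine ⟨_, h8, ?_⟩
    rw [hnext, dst3_bits, h6, ← hcN n c t z hin h4]
    unfold mN
    simp only [hin]
    rw [if_pos (by simp)]
  have reach : ∀ n, 1 ≤ n → n.bits.length ≤ β y + 1 →
      ∃ s, N.Reach A y s ∧ dst3 s = (n, cc (β y) y L n, []) := by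
    intro n hn
    induction n, hn using Nat.le_induction with
    | base => exact fun _ => ⟨[], SAlg.Reach.start, by rw [cc_one]; exact dst3_nil⟩
    | succ n hn ih =>
        intro h1
        obtain ⟨s, h3, h4⟩ := ih ((bits_length_mono (Nat.le_succ n)).trans h1)
        obtain ⟨s', h5, h6⟩ := adv n _ s h3 h4 h1
        exact ⟨s', h5, by rw [h6, cc_succ]⟩
  refine ⟨fun s hs => ?_, ?_⟩
  · obtain ⟨h1, h2, h3, h4, h5⟩ := inv s hs
    rcases h5 with h5 | h5
    · rw [h5]
      simp
    · rw [h5, bits_length]
      generalize dst3 s = t at h1 h2 h3 h4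
      obtain ⟨n, c, t⟩ := t
      rw [sz_pair, sz_pair]
      have e0 := sz_nat_le c
      rw [← Nat.size_eq_bits_len] at e0
      have e1 := sz_nat_le n
      rw [← Nat.size_eq_bits_len] at e1
      have e7 := bits_length_mono h4.le
      have e2 := sz_listBool_le t
      have e3 := (hM (pairBits (cand n) y)).1 t h3
      have e4 : (pairBits (cand n) y).length ≤ (Polynomial.C 2 *
          q.comp (Polynomial.C 4 * Polynomial.X + Polynomial.C 1) + Polynomial.C 1 +
          Polynomial.X).eval y.length := by
        rw [length_pairBits, length_cand]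
        have := hqb y
        simp only [Polynomial.eval_add, Polynomial.eval_mul, Polynomial.eval_C,
          Polynomial.eval_X] at this ⊢
        simp only at h2
        omega
      have e5 := eval_mono p e4
      have e6 := hqb y
      simp only at h2 e7
      rw [Polynomial.eval_add, Polynomial.eval_add, Polynomial.eval_add, Polynomial.eval_add,
        Polynomial.eval_mul, Polynomial.eval_add, Polynomial.eval_mul, Polynomial.eval_comp (p := p)]
      simp only [Polynomial.eval_C]
      omega
  · have hlast : (2 ^ (β y + 1) - 1).bits.length ≤ β y + 1 := by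
      rw [Nat.size_eq_bits_len, Nat.size_le]
      have : 0 < 2 ^ (β y + 1) := by positivity
      omega
    have hpos : 1 ≤ 2 ^ (β y + 1) - 1 := by
      have : 2 ^ 1 ≤ 2 ^ (β y + 1) := Nat.pow_le_pow_right (by norm_num) (by omega)
      omega
    obtain ⟨s, h4, h5⟩ := reach _ hpos hlast
    obtain ⟨_, t, z, h6, h7, h8⟩ := hM (pairBits (cand (2 ^ (β y + 1) - 1)) y)
    obtain ⟨s', h9, h10⟩ := sim _ _ s h4 h5 t h6
    have hin : inAct M y (2 ^ (β y + 1) - 1, t) = true :: z := h7
    have hsucc : 2 ^ (β y + 1) - 1 + 1 = 2 ^ (β y + 1) := by omega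
    have hc := hcN _ (cc (β y) y L (2 ^ (β y + 1) - 1)) t z hin h8
    rw [← cc_succ, hsucc] at hc
    have hA : N.act (pairBits y s') =
        if (cc (β y) y L (2 ^ (β y + 1))).bits.head? = some true then
        [true, true] else [true] := by
      rw [hact, h10]
      unfold mA
      rw [hc]
      simp only [hin]
      rw [if_pos (by simp), if_pos]
      rw [Nat.size_eq_bits_len, hsucc]
      exact Nat.lt_size.2 le_rfl
    have hiff : y ∈ {y | Odd (cc (β y) y L (2 ^ (β y + 1)))} ↔
        (cc (β y) y L (2 ^ (β y + 1))).bits.head? = some true := by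
      rw [Set.mem_ofPred_eq, head_bits]
    by_cases hyes : (cc (β y) y L (2 ^ (β y + 1))).bits.head? = some true
    · exact ⟨s', [true], h9, by rw [hA, if_pos hyes], by simp only [hiff, hyes]⟩
    · exact ⟨s', [], h9, by rw [hA, if_neg hyes], by simp only [hiff, hyes]; simp⟩

/-- the parity of the number of witnesses is computed in polynomial space -/
theorem of_parity {A : Oracle} {L : Set (List Bool)} {V : List Bool → List Bool}
    {p : Polynomial ℕ} (hV : IsFP A V) (hL : ∀ x, x ∈ L ↔
      Odd (Nat.card {w : Fin (p.eval x.length) → Bool // V (pairBits (List.ofFn w) x) = [true]})) :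
    IsPSPACE A L := by
  have h1 : IsPSPACE A {z | V z = [true]} := IsP.isPSPACE ⟨V, hV, fun x => Iff.rfl⟩
  have hβ : UPoly (fun y : List Bool => p.eval y.length) :=
    UPoly.eval (UPoly.length Poly.id) p
  have h2 := parity h1 hβ
  have e : {y : List Bool | Odd (N2.cc (p.eval y.length) y {z | V z = [true]}
      (2 ^ (p.eval y.length + 1)))} = L := by
    ext x
    rw [Set.mem_ofPred_eq, ← N2.card_eq_cc, hL]
  rw [e] at h2
  exact h2

end Par

end Pool.Agent.H877R3.Join
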