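import Pool.Agent.H877R3.Join.IP
import Pool.Agent.H877R3.Join.DisStage
import Pool.Agent.H877R3.Join.Par

/-!
# The inner product: the stage, and membership in parity polynomial time
-/

namespace Pool.Agent.H877R3.Join

open Pool.Agent.NPC Pool.Agent.H622R2 Pool.Agent.H620R2.Gauge Finset

/-- the number of the common strings of length `2|x|+1` of the two oracles -/
noncomputable def ipCount (X Y : Oracle) (x : List Bool) : ℕ :=
  Nat.card {f : Fin (2 * x.length + 1) → Bool // X (List.ofFn f) = true ∧ Y (List.ofFn f) = true}

/-- the inputs `x` for which the number of the common strings of length `2|x|+1` is odd -/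
def ipLang (X Y : Oracle) : Set (List Bool) := {x | Odd (ipCount X Y x)}

/-- the randomized algorithm is correct on the input `ones n`, in the sense of `PP` -/
def CorrPP (M : Alg) (p : Polynomial ℕ) (A : Oracle) (n : ℕ) (P : Prop) : Prop :=
  (P → 2 ^ p.eval n < 2 * Nat.card {w : Fin (p.eval n) → Bool //
    M.out A (pairBits (List.ofFn w) (ones n)) = some [true]}) ∧
  (¬ P → 2 * Nat.card {w : Fin (p.eval n) → Bool //
    M.out A (pairBits (List.ofFn w) (ones n)) = some [true]} < 2 ^ p.eval n)

theorem ip_put {n : ℕ} (S T : (Fin (2 * n + 1) → Bool) → Bool) (X Y : Oracle) :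
    ipCount (put (2 * n + 1) (univ.filter (fun i => S i = true)) X)
      (put (2 * n + 1) (univ.filter (fun i => T i = true)) Y) (ones n) =
      (univ.filter (fun i => S i = true ∧ T i = true)).card := by
  classical
  unfold ipCount
  rw [length_ones, Nat.card_eq_fintype_card, Fintype.card_subtype]
  congr 1
  ext f
  rw [mem_filter, mem_filter, put_ofFn, put_ofFn, mem_filter, mem_filter]
  simp

theorem stageIP {Ψ : Oracle → Oracle} (hΨ : Local Ψ) (X Y : Oracle) (M : Alg)
    (p : Polynomial ℕ) (N : ℕ) : ∃ (n : ℕ) (X1 Y1 : Oracle) (N' : ℕ), N < N' ∧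
      (∀ z : List Bool, z.length < N → X1 z = X z) ∧ (∀ z : List Bool, z.length < N → Y1 z = Y z) ∧
      ∀ X' Y' : Oracle, (∀ z : List Bool, z.length < N' → X' z = X1 z) →
        (∀ z : List Bool, z.length < N' → Y' z = Y1 z) →
        ¬ CorrPP M p (join (Ψ X') (Ψ Y')) n (ones n ∈ ipLang X' Y') := by
  classical
  set r : Polynomial ℕ := M.p.comp (Polynomial.C 2 * p + Polynomial.C 1 + Polynomial.X) with hr
  obtain ⟨N1, hN1⟩ := Filter.eventually_atTop.1 (poly_le (p + r + Polynomial.C 4) 1)
  set n := max N N1 with hn
  have hnN : N ≤ n := le_max_left _ _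
  have hbig : p.eval n + r.eval n + 4 ≤ 2 ^ n := by
    have h1 := hN1 n (le_max_right _ _)
    simpa using h1
  have hr' : ∀ w : Fin (p.eval n) → Bool,
      M.p.eval (pairBits (List.ofFn w) (ones n)).length ≤ r.eval n := by
    intro w
    rw [hr, Polynomial.eval_comp]
    apply eval_mono'
    rw [length_pairBits, length_ones, List.length_ofFn]
    simp only [Polynomial.eval_add, Polynomial.eval_mul, Polynomial.eval_C, Polynomial.eval_X]
    omega
  have hnot : ¬ ∀ S T : (Fin (2 * n + 1) → Bool) → Bool,
      CorrPP M p (join (Ψ (put (2 * n + 1) (univ.filter (fun i => S i = true)) X))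
        (Ψ (put (2 * n + 1) (univ.filter (fun i => T i = true)) Y))) n
        (Odd (univ.filter (fun i => S i = true ∧ T i = true)).card) := by
    intro h
    have h1 := hardPP (I := Fin (2 * n + 1) → Bool) M (ones n) (r.eval n) (p.eval n) hr'
      (fun S => Ψ (put (2 * n + 1) (univ.filter (fun i => S i = true)) X))
      (fun T => Ψ (put (2 * n + 1) (univ.filter (fun i => T i = true)) Y))
      (fun S T hST => (h S T).1 hST) (fun S T hST => (h S T).2 hST)
    rw [Fintype.card_fun, Fintype.card_bool, Fintype.card_fin] at h1
    have h2 : 2 * 2 ^ n ≤ 2 ^ (2 * n + 1) := by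
      rw [← pow_succ']
      exact Nat.pow_le_pow_right (by norm_num) (by omega)
    omega
  push Not at hnot
  obtain ⟨S, T, hfail⟩ := hnot
  obtain ⟨N2, hN2⟩ := out_congr hΨ M (2 * p.eval n + 1 + n)
  refine ⟨n, put (2 * n + 1) (univ.filter (fun i => S i = true)) X,
    put (2 * n + 1) (univ.filter (fun i => T i = true)) Y, max N2 (2 * n + 2) + N + 1,
    by omega, ?_, ?_, ?_⟩
  · intro z hz
    exact put_ne (by omega)
  · intro z hz
    exact put_ne (by omega)
  intro X' Y' hX hY hiff
  apply hfail
  have key : ∀ w : Fin (p.eval n) → Bool,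
      M.out (join (Ψ X') (Ψ Y')) (pairBits (List.ofFn w) (ones n)) =
      M.out (join (Ψ (put (2 * n + 1) (univ.filter (fun i => S i = true)) X))
        (Ψ (put (2 * n + 1) (univ.filter (fun i => T i = true)) Y)))
        (pairBits (List.ofFn w) (ones n)) := by
    intro w
    refine hN2 _ _ _ _ (fun z hz => hX z (by omega)) (fun z hz => hY z (by omega)) _ ?_
    rw [length_pairBits, length_ones, List.length_ofFn]
  have key2 : ones n ∈ ipLang X' Y' ↔
      Odd (univ.filter (fun i => S i = true ∧ T i = true)).card := by
    rw [← ip_put S T X Y]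
    have e : ipCount X' Y' (ones n) = ipCount
      (put (2 * n + 1) (univ.filter (fun i => S i = true)) X)
      (put (2 * n + 1) (univ.filter (fun i => T i = true)) Y) (ones n) := by
      unfold ipCount
      congr 1
      have e2 : (ones n).length = n := length_ones n
      have : ∀ f : Fin (2 * (ones n).length + 1) → Bool, (List.ofFn f).length < 2 * n + 2 := by
        intro f
        rw [List.length_ofFn, e2]
        omega
      simp only [fun f => hX (List.ofFn f) (by have := this f; omega),
        fun f => hY (List.ofFn f) (by have := this f; omega)]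
    show Odd _ ↔ _
    rw [e]
  unfold CorrPP at hiff ⊢
  simp only [key, key2] at hiff
  exact hiff

/-! ### Counting -/

/-- the two questions -/
def iqs (y : List Bool) : List (List Bool) :=
  [false :: false :: false :: true :: false :: (unpair y).1,
    true :: false :: false :: true :: false :: (unpair y).1]

/-- the decision -/
def idec (t : List Bool × List Bool) : List Bool :=
  if t.2 = [true, true] then [true] else []

theorem poly_idec : Poly idec :=
  Poly.ite (Poly.decide_eq (Poly.snd Poly.id) (NPC.Poly.const _)) (NPC.Poly.const _)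
      (NPC.Poly.const _)

theorem ip_count {A B X Y : Oracle}
    (hA : ∀ z, A (false :: false :: true :: false :: z) = X z)
    (hB : ∀ z, B (false :: false :: true :: false :: z) = Y z) :
    ∃ (V : List Bool → List Bool) (p : Polynomial ℕ),
      IsFP (Pool.Agent.H877R3.Join.join A B) V ∧ ∀ x, ipCount X Y x =
      Nat.card {w : Fin (p.eval x.length) → Bool // V (pairBits (List.ofFn w) x) = [true]} := by
  refine ⟨fun y => idec (y, (dqs y).map (join A B)),
    Polynomial.C 2 * Polynomial.X + Polynomial.C 1, IsFP.tt poly_dqs poly_idec, fun x => ?_⟩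
  have hp : (Polynomial.C 2 * Polynomial.X + Polynomial.C 1 : Polynomial ℕ).eval x.length =
      2 * x.length + 1 := by simp
  unfold ipCount
  rw [hp]
  congr 1
  have : ∀ w : Fin (2 * x.length + 1) → Bool,
      (idec (pairBits (List.ofFn w) x, (dqs (pairBits (List.ofFn w) x)).map (join A B)) = [true]) =
      (X (List.ofFn w) = true ∧ Y (List.ofFn w) = true) := by
    intro w
    simp only [idec, dqs, unpair_pairBits, List.map_cons, List.map_nil, join, hA, hB]
    simp
  simp only [this]

end Pool.Agent.H877R3.Join
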