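import Pool.Agent.H877R3.Join.Half

/-!
# The construction with the inner product
-/

namespace Pool.Agent.H877R3.Join

open Pool.Agent.NPC Pool.Agent.H622R2 Pool.Agent.H620R2.Gauge Finset

/-- The function `f` counts witnesses of length `p(|x|)` which are recognized in polynomial time
relative to `A`. -/
def IsSharpP (A : Oracle) (f : List Bool → ℕ) : Prop :=
  ∃ (V : List Bool → List Bool) (p : Polynomial ℕ), IsFP A V ∧ ∀ x, f x =
    Nat.card {w : Fin (p.eval x.length) → Bool // V (pairBits (List.ofFn w) x) = [true]}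

/-- the input for the stage: `b = true` for the language, `b = false` for its complement -/
def inp (b : Bool) (n : ℕ) : List Bool := b :: ones (n - 1)

theorem length_inp (b : Bool) (n : ℕ) (hn : 1 ≤ n) : (inp b n).length = n := by
  unfold inp
  rw [List.length_cons, length_ones]
  omega

theorem main4 (C : Oracle) : ∃ A : ℕ → Oracle,
    (∀ i, Reduces {x | C x = true} {x | A i x = true} ∧
      (∀ L, IsPSPACE (A i) L → Reduces L {x | A i x = true}) ∧
      ∀ L, IsP (A i) L ↔ IsPSPACE (A i) L) ∧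
    ∀ i j, i ≠ j →
      (∃ L, IsBPP (join (A i) (A j)) L ∧
        ¬ Pool.Agent.H620R2.Gauge.IsNP (join (A i) (A j)) L ∧
        ¬ Pool.Agent.H620R2.Gauge.IsNP (join (A i) (A j)) Lᶜ) ∧
      ∃ f, IsSharpP (join (A i) (A j)) f ∧ IsPSPACE (join (A i) (A j)) {x | Odd (f x)} ∧
        ¬ Pool.Agent.H943R3.PP.IsPP (join (A i) (A j)) {x | Odd (f x)} := by
  classical
  obtain ⟨R, Φ, hR, hΦ1, hΦ2, hΦ3⟩ := exists_coding_local
  have hloc : Local (fun X => Φ (bas C X)) := fun n B B' h z hz =>
    hΦ3 n _ _ (fun z hz => bas_local C n B B' h z hz) z hz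
  have hc : Countable (Polynomial ℕ) := CC.poly_countable
  have hne : Nonempty Alg := ⟨⟨_, CC.const_polyTime [], 0⟩⟩
  obtain ⟨X, hX⟩ := sequence (ρ := Bool × Bool × Alg × Polynomial ℕ) (fun r X Y =>
    ∃ n : ℕ, if r.1 = true then 1 ≤ n ∧
      ¬ ((∃ w : List Bool, w.length ≤ r.2.2.2.eval n ∧
        r.2.2.1.out (join (Φ (bas C X)) (Φ (bas C Y))) (pairBits (inp r.2.1 n) w) = some [true]) ↔
          inp r.2.1 n ∈ eqLang X Y)
    else ¬ CorrPP r.2.2.1 r.2.2.2 (join (Φ (bas C X)) (Φ (bas C Y))) n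
      (ones n ∈ ipLang X Y)) (by
      rintro ⟨b, c, M, p⟩ X Y N
      cases b
      · obtain ⟨n, X1, Y1, N', h1, h2, h3, h4⟩ := stageIP hloc X Y M p N
        exact ⟨X1, Y1, N', h1, h2, h3, fun X' Y' hX hY => ⟨n, h4 X' Y' hX hY⟩⟩
      · obtain ⟨n, X1, Y1, N', h1, h2, h3, h4⟩ := stageEq' (inp c) (length_inp c) hloc X Y M p N
        exact ⟨X1, Y1, N', h1, h2, h3, fun X' Y' hX hY => ⟨n, h4 X' Y' hX hY⟩⟩)
  have hnc : ∀ (B : Oracle) (z : List Bool), Φ B (false :: false :: z) = B (false :: false :: z) :=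
    fun B z => hΦ1 B _ (fun e x => ne_code hR z e x)
  refine ⟨fun i => Φ (bas C (X i)), fun i => ⟨?_, hΦ2 _, fun L =>
    ⟨fun h => h.isPSPACE, fun h => isP_of_reduces (hΦ2 _ L h)⟩⟩, ?_⟩
  · refine ⟨fun x => false :: false :: false :: x, polyTime_of_poly_list
      (Poly.cons (NPC.Poly.const _) (Poly.cons (NPC.Poly.const _)
        (Poly.cons (NPC.Poly.const _) NPC.Poly.id))), fun x => ?_⟩
    change C x = true ↔ Φ (bas C (X i)) (false :: false :: false :: x) = true
    rw [hnc]
    exact Iff.rfl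
  intro i j hij
  -- a nondeterministic algorithm for one half
  have hnp : ∀ (c : Bool) (L : Set (List Bool)),
      (∀ n, 1 ≤ n → (inp c n ∈ L ↔ inp c n ∈ eqLang (X i) (X j))) →
      ¬ Pool.Agent.H620R2.Gauge.IsNP (join (Φ (bas C (X i))) (Φ (bas C (X j)))) L := by
    rintro c L hLe ⟨V, p, hV, hL⟩
    obtain ⟨M, hM⟩ := hV.precomp poly_swp
    obtain ⟨n, hn⟩ := hX i j hij (true, c, M, p)
    rw [if_pos rfl] at hn
    obtain ⟨hn1, hn⟩ := hn
    apply hn
    rw [← hLe n hn1, hL (inp c n), length_inp c n hn1]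
    constructor
    · rintro ⟨w, hw, h⟩
      rw [hM] at h
      simp only [swp, unpair_pairBits] at h
      exact ⟨w, hw, Option.some.inj h⟩
    · rintro ⟨w, hw, h⟩
      refine ⟨w, hw, ?_⟩
      rw [hM]
      simp only [swp, unpair_pairBits]
      rw [h]
  refine ⟨⟨halfLang (X i) (X j), ?_, ?_, ?_⟩, ⟨ipCount (X i) (X j), ?_, ?_, ?_⟩⟩
  · exact half_bpp (eq_rand (A := Φ (bas C (X i))) (B := Φ (bas C (X j))) (X := X i) (Y := X j)
      (fun z => by rw [hnc]; rfl) (fun z => by rw [hnc]; rfl)).1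
  · refine hnp true _ fun n _ => ?_
    show (_ ↔ (inp true n).head? = some true) ↔ _
    exact ⟨fun h => h.2 rfl, fun h => ⟨fun _ => rfl, fun _ => h⟩⟩
  · refine hnp false _ fun n _ => ?_
    show ¬ (_ ↔ (inp false n).head? = some true) ↔ _
    have hne : ¬ (inp false n).head? = some true := by simp [inp]
    constructor
    · intro h
      by_contra h'
      exact h ⟨fun h => absurd h h', fun h => absurd h hne⟩
    · intro h h'
      exact hne (h'.1 h)
  · exact ip_count (A := Φ (bas C (X i))) (B := Φ (bas C (X j))) (X := X i) (Y := X j)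
      (fun z => by rw [hnc]; rfl) (fun z => by rw [hnc]; rfl)
  · obtain ⟨V, p, hV, hL⟩ := ip_count (A := Φ (bas C (X i))) (B := Φ (bas C (X j))) (X := X i)
      (Y := X j) (fun z => by rw [hnc]; rfl) (fun z => by rw [hnc]; rfl)
    exact Par.of_parity hV (fun x => by rw [← hL x]; exact Iff.rfl)
  · rintro ⟨V, p, ⟨M, hM⟩, hL⟩
    obtain ⟨n, hn⟩ := hX i j hij (false, false, M, p)
    rw [if_neg (by simp)] at hn
    apply hn
    obtain ⟨h1, h2⟩ := hL (ones n)
    rw [length_ones] at h1 h2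
    have hout : ∀ w : Fin (p.eval n) → Bool,
        M.out (join (Φ (bas C (X i))) (Φ (bas C (X j)))) (pairBits (List.ofFn w) (ones n)) =
          some [true] ↔ V (pairBits (List.ofFn w) (ones n)) = [true] := by
      intro w
      rw [hM]
      exact ⟨fun h => Option.some.inj h, fun h => by rw [h]⟩
    have hpos : (0 : ℝ) < 2 ^ p.eval n := by positivity
    refine ⟨fun hx => ?_, fun hx => ?_⟩
    · have h := h1 hx
      simp only [hout]
      rw [accPr, div_lt_div_iff₀ (by norm_num) hpos] at h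
      have h' : (2 : ℝ) ^ p.eval n < 2 * (Nat.card {w : Fin (p.eval n) → Bool //
          V (pairBits (List.ofFn w) (ones n)) = [true]} : ℝ) := by linarith
      exact_mod_cast h'
    · have h := h2 hx
      simp only [hout]
      rw [accPr, div_lt_div_iff₀ hpos (by norm_num)] at h
      have h' : 2 * (Nat.card {w : Fin (p.eval n) → Bool //
          V (pairBits (List.ofFn w) (ones n)) = [true]} : ℝ) < (2 : ℝ) ^ p.eval n := by linarith
      exact_mod_cast h'

end Pool.Agent.H877R3.Join
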