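import Pool.Agent.H877R3.Join.Far

/-!
# The construction with the inner product and the far strings
-/

namespace Pool.Agent.H877R3.Join

open Pool.Agent.NPC Pool.Agent.H622R2 Pool.Agent.H620R2.Gauge Finset

theorem main5 (C : Oracle) : ∃ A : ℕ → Oracle,
    (∀ i, Reduces {x | C x = true} {x | A i x = true} ∧
      (∀ L, IsPSPACE (A i) L → Reduces L {x | A i x = true}) ∧
      ∀ L, IsP (A i) L ↔ IsPSPACE (A i) L) ∧
    ∀ i j, i ≠ j →
      (∃ L, IsRP (join (A i) (A j)) L ∧ Pool.Agent.H620R2.Gauge.IsNP (join (A i) (A j)) L ∧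
        ¬ Pool.Agent.H620R2.Gauge.IsNP (join (A i) (A j)) Lᶜ) ∧
      (∃ f, IsSharpP (join (A i) (A j)) f ∧ IsPSPACE (join (A i) (A j)) {x | Odd (f x)} ∧
        ¬ Pool.Agent.H943R3.PP.IsPP (join (A i) (A j)) {x | Odd (f x)}) ∧
      ∃ L, IsEXP (join (A i) (A j)) L ∧ ¬ IsPSPACE (join (A i) (A j)) L := by
  classical
  obtain ⟨R, Φ, hR, hΦ1, hΦ2, hΦ3⟩ := exists_coding_local
  have hloc : Local (fun X => Φ (bas C X)) := fun n B B' h z hz =>
    hΦ3 n _ _ (fun z hz => bas_local C n B B' h z hz) z hz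
  have hc : Countable (Polynomial ℕ) := CC.poly_countable
  have hcs : Countable SAlg := CC.salg_countable
  have hne : Nonempty Alg := ⟨⟨_, CC.const_polyTime [], 0⟩⟩
  obtain ⟨X, hX⟩ := sequence (ρ := (Bool × Alg × Polynomial ℕ) ⊕ (SAlg × Polynomial ℕ))
    (fun r X Y => ∃ n : ℕ, Sum.elim (fun r : Bool × Alg × Polynomial ℕ => if r.1 = true then
      ¬ ((∃ w : List Bool, w.length ≤ r.2.2.eval n ∧
        r.2.1.out (join (Φ (bas C X)) (Φ (bas C Y))) (pairBits (ones n) w) = some [true]) ↔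
          ones n ∈ eqLang X Y)
    else ¬ CorrPP r.2.1 r.2.2 (join (Φ (bas C X)) (Φ (bas C Y))) n
      (ones n ∈ ipLang X Y))
      (fun r : SAlg × Polynomial ℕ => ¬ CorrS r.1 r.2 (join (Φ (bas C X)) (Φ (bas C Y))) (farIn n)
        (X (farStr n) = true)) r) (by
      rintro (⟨b, M, p⟩ | ⟨M, p⟩) X Y N
      · cases b
        · obtain ⟨n, X1, Y1, N', h1, h2, h3, h4⟩ := stageIP hloc X Y M p N
          exact ⟨X1, Y1, N', h1, h2, h3, fun X' Y' hX hY => ⟨n, h4 X' Y' hX hY⟩⟩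
        · obtain ⟨n, X1, Y1, N', h1, h2, h3, h4⟩ := stageEq hloc X Y M p N
          exact ⟨X1, Y1, N', h1, h2, h3, fun X' Y' hX hY => ⟨n, h4 X' Y' hX hY⟩⟩
      · obtain ⟨n, X1, Y1, N', h1, h2, h3, h4⟩ := stageFar hloc X Y M p N
        exact ⟨X1, Y1, N', h1, h2, h3, fun X' Y' hX hY => ⟨n, h4 X' Y' hX hY⟩⟩)
  have hnc : ∀ (B : Oracle) (z : List Bool), Φ B (false :: false :: z) = B (false :: false :: z) :=
    fun B z => hΦ1 B _ (fun e x => ne_code hR z e x)
  refine ⟨fun i => Φ (bas C (X i)), fun i => ⟨?_, hΦ2 _, fun L =>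
    ⟨fun h => h.isPSPACE, fun h => isP_of_reduces (hΦ2 _ L h)⟩⟩, ?_⟩
  · refine ⟨fun x => false :: false :: false :: x, polyTime_of_poly_list
      (Poly.cons (NPC.Poly.const _) (Poly.cons (NPC.Poly.const _)
        (Poly.cons (NPC.Poly.const _) NPC.Poly.id))), fun x => ?_⟩
    change C x = true ↔ Φ (bas C (X i)) (false :: false :: false :: x) = true
    rw [hnc]
    exact Iff.rfl
  intro i j hij
  have hA : ∀ k z, Φ (bas C (X k)) (false :: false :: true :: false :: z) = X k z :=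
    fun k z => by rw [hnc]; rfl
  refine ⟨⟨(eqLang (X i) (X j))ᶜ, ?_, neq_np (hA i) (hA j), ?_⟩,
    ⟨ipCount (X i) (X j), ip_count (hA i) (hA j), ?_, ?_⟩,
    ⟨farLang (join (Φ (bas C (X i))) (Φ (bas C (X j)))), farLang_exp _, ?_⟩⟩
  · exact (eq_rand (A := Φ (bas C (X i))) (B := Φ (bas C (X j))) (X := X i) (Y := X j)
      (fun z => by rw [hnc]; rfl) (fun z => by rw [hnc]; rfl)).2
  · rw [compl_compl]
    rintro ⟨V, p, hV, hL⟩
    obtain ⟨M, hM⟩ := hV.precomp poly_swp
    obtain ⟨n, hn⟩ := hX i j hij (Sum.inl (true, M, p))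
    simp only [Sum.elim_inl, if_true] at hn
    apply hn
    rw [hL (ones n), length_ones]
    constructor
    · rintro ⟨w, hw, h⟩
      rw [hM] at h
      simp only [swp, unpair_pairBits] at h
      exact ⟨w, hw, Option.some.inj h⟩
    · rintro ⟨w, hw, h⟩
      refine ⟨w, hw, ?_⟩
      rw [hM]
      simp only [swp, unpair_pairBits]
      rw [h]
  · obtain ⟨V, p, hV, hL⟩ := ip_count (A := Φ (bas C (X i))) (B := Φ (bas C (X j))) (X := X i)
      (Y := X j) (hA i) (hA j)
    exact Par.of_parity hV (fun x => by rw [← hL x]; exact Iff.rfl)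
  · rintro ⟨V, p, ⟨M, hM⟩, hL⟩
    obtain ⟨n, hn⟩ := hX i j hij (Sum.inl (false, M, p))
    simp only [Sum.elim_inl, Bool.false_eq_true, if_false] at hn
    apply hn
    obtain ⟨h1, h2⟩ := hL (ones n)
    rw [length_ones] at h1 h2
    have hout : ∀ w : Fin (p.eval n) → Bool,
        M.out (join (Φ (bas C (X i))) (Φ (bas C (X j)))) (pairBits (List.ofFn w) (ones n)) =
          some [true] ↔ V (pairBits (List.ofFn w) (ones n)) = [true] := by
      intro w
      rw [hM]
      exact ⟨fun h => Option.some.inj h, fun h => by rw [h]⟩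
    have hpos : (0 : ℝ) < 2 ^ p.eval n := by positivity
    refine ⟨fun hx => ?_, fun hx => ?_⟩
    · have h := h1 hx
      simp only [hout]
      rw [accPr, div_lt_div_iff₀ (by norm_num) hpos] at h
      have h' : (2 : ℝ) ^ p.eval n < 2 * (Nat.card {w : Fin (p.eval n) → Bool //
          V (pairBits (List.ofFn w) (ones n)) = [true]} : ℝ) := by linarith
      exact_mod_cast h'
    · have h := h2 hx
      simp only [hout]
      rw [accPr, div_lt_div_iff₀ hpos (by norm_num)] at h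
      have h' : 2 * (Nat.card {w : Fin (p.eval n) → Bool //
          V (pairBits (List.ofFn w) (ones n)) = [true]} : ℝ) < (2 : ℝ) ^ p.eval n := by linarith
      exact_mod_cast h'
  · rintro ⟨M, p, hM⟩
    obtain ⟨n, hn⟩ := hX i j hij (Sum.inr (M, p))
    simp only [Sum.elim_inr] at hn
    apply hn
    obtain ⟨h1, s, z, h2, h3, h4⟩ := hM (farIn n)
    refine ⟨h1, s, z, h2, h3, ?_⟩
    rw [← h4]
    exact (farIn_mem (A := Φ (bas C (X i))) (B := Φ (bas C (X j))) (hA i) n).symm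

end Pool.Agent.H877R3.Join
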