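import Pool.Agent.H877R3.Join.Main4

/-!
# `P` and `BPP` are contained in `PP`
-/

namespace Pool.Agent.H877R3.Join

open Pool.Agent.NPC Pool.Agent.H622R2 Pool.Agent.H620R2.Gauge Finset
open Pool.Agent.H943R3.PP (IsPP)

theorem isPP_of_isBPP {A : Oracle} {L : Set (List Bool)} (h : IsBPP A L) : IsPP A L := by
  obtain ⟨V, p, hV, hL⟩ := h
  refine ⟨V, p, hV, fun x => ?_⟩
  obtain ⟨h1, h2⟩ := hL x
  have h3 : (1 : ℝ) / 2 ^ (x.length + 2) ≤ 1 / 4 := by
    apply one_div_le_one_div_of_le (by norm_num)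
    calc (4 : ℝ) = 2 ^ 2 := by norm_num
      _ ≤ 2 ^ (x.length + 2) := pow_le_pow_right₀ (by norm_num) (by omega)
  refine ⟨fun h => ?_, fun h => ?_⟩
  · have := h1 h
    linarith
  · have := h2 h
    linarith

theorem isBPP_of_isP {A : Oracle} {L : Set (List Bool)} (h : IsP A L) : IsBPP A L := by
  obtain ⟨V, hV, hL⟩ := h
  refine ⟨fun y => V (unpair y).2, 0, hV.precomp (Poly.snd poly_unpair), fun x => ?_⟩
  have h0 : (0 : Polynomial ℕ).eval x.length = 0 := by simp
  have e : accPr (fun y => V (unpair y).2) 0 x = if V x = [true] then 1 else 0 := by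
    unfold accPr
    simp only [unpair_pairBits]
    by_cases h : V x = [true]
    · simp [h]
    · simp [h]
  rw [h0, e, hL x]
  have h3 : (0 : ℝ) ≤ 1 / 2 ^ (x.length + 2) := by positivity
  by_cases h : V x = [true]
  · simp only [h, if_true]
    refine ⟨fun _ => by linarith, fun h' => absurd trivial h'⟩
  · simp only [h, if_false]
    exact ⟨fun h' => absurd h' (by simp), fun _ => h3⟩

theorem pp_collapse {A : Oracle} (h : ∀ L, IsP A L ↔ IsPSPACE A L) (L : Set (List Bool)) :
    IsP A L ↔ IsPP A L :=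
  ⟨fun h1 => isPP_of_isBPP (isBPP_of_isP h1),
    fun h1 => (h L).2 (Pool.Agent.H943R3.PP.isPSPACE_of_isPP h1)⟩

end Pool.Agent.H877R3.Join
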